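import Pool.Agent.L0h58.HY.Stm

/-!
# Project HY (helper58), module FLD (by helper85): the field
-/

set_option autoImplicit false

namespace Pool.Agent.L0h85.HY

open Finset Polynomial Pool.Agent.L0h58.HY

theorem coeff_code (m i : ℕ) : (code m).coeff i = if m.testBit i = true then 1 else 0 := by
  unfold code
  rw [finsetSum_coeff]
  by_cases h : m.testBit i = true
  · rw [if_pos h, Finset.sum_eq_single i]
    · rw [if_pos h, coeff_X_pow, if_pos rfl]
    · intro j _ hj
      by_cases h' : m.testBit j = true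
      · rw [if_pos h', coeff_X_pow, if_neg (fun e => hj e.symm)]
      · rw [if_neg h', coeff_zero]
    · intro hi
      exfalso
      apply hi
      rw [Finset.mem_range]
      exact lt_of_lt_of_le Nat.lt_two_pow_self (Nat.ge_two_pow_of_testBit h)
  · rw [if_neg h]
    refine Finset.sum_eq_zero fun j _ => ?_
    by_cases h' : m.testBit j = true
    · rw [if_pos h', coeff_X_pow, if_neg]
      intro e
      rw [e] at h
      exact h h'
    · rw [if_neg h', coeff_zero]

theorem exists_code (q : (ZMod 2)[X]) : ∃ m, code m = q := by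
  classical
  refine ⟨Nat.ofBits (fun i : Fin (q.natDegree + 1) => decide (q.coeff i ≠ 0)), ?_⟩
  ext i
  rw [coeff_code]
  by_cases hi : i < q.natDegree + 1
  · rw [Nat.testBit_ofBits_lt _ i hi]
    have h2 : ∀ x : ZMod 2, x = 0 ∨ x = 1 := by decide
    rcases h2 (q.coeff i) with h | h
    · simp [h]
    · simp [h]
  · rw [Nat.testBit_ofBits_ge _ i (not_lt.1 hi), if_neg (by simp)]
    rw [coeff_eq_zero_of_natDegree_lt (by omega)]

theorem exists_irr (ρ : ℕ) (hρ : 1 ≤ ρ) : ∃ q : (ZMod 2)[X], Irreducible q ∧ q.natDegree = ρ := by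
  obtain ⟨α, hα⟩ := Field.exists_primitive_element (ZMod 2) (GaloisField 2 ρ)
  refine ⟨minpoly (ZMod 2) α, minpoly.irreducible (Algebra.IsIntegral.isIntegral α), ?_⟩
  rw [Field.primitive_element_iff_minpoly_natDegree_eq] at hα
  rw [hα, GaloisField.finrank 2 (by omega)]

theorem irrPoly_spec (ρ : ℕ) (hρ : 1 ≤ ρ) : Irreducible (irrPoly ρ) ∧ (irrPoly ρ).natDegree = ρ := by
  have hne : {m | Irreducible (code m) ∧ (code m).natDegree = ρ}.Nonempty := by
    obtain ⟨q, h1, h2⟩ := exists_irr ρ hρ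
    obtain ⟨m, rfl⟩ := exists_code q
    exact ⟨m, h1, h2⟩
  exact Nat.sInf_mem hne

theorem t_FLD : S_FLD := by
  intro ρ hρ
  obtain ⟨hirr, hdeg⟩ := irrPoly_spec ρ hρ
  haveI : Fact (Irreducible (irrPoly ρ)) := ⟨hirr⟩
  have hne : irrPoly ρ ≠ 0 := hirr.ne_zero
  have hdim : (AdjoinRoot.powerBasis hne).dim = ρ := by
    rw [AdjoinRoot.powerBasis_dim, hdeg]
  let B := (AdjoinRoot.powerBasis hne).basis.reindex (finCongr hdim)
  let e : (Fin ρ → ZMod 2) ≃ₗ[ZMod 2] AdjoinRoot (irrPoly ρ) := B.equivFun.symm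
  haveI : Fintype (AdjoinRoot (irrPoly ρ)) := Fintype.ofEquiv _ e.toEquiv
  refine ⟨AdjoinRoot (irrPoly ρ), inferInstance, this, inferInstance, e,
    AdjoinRoot.root (irrPoly ρ), ?_, ?_, ?_⟩
  · rw [← Fintype.card_congr e.toEquiv]
    simp
  · intro v
    show B.equivFun.symm v = _
    rw [Module.Basis.equivFun_symm_apply]
    refine Finset.sum_congr rfl fun a _ => ?_
    congr 1
    rw [Module.Basis.reindex_apply, PowerBasis.basis_eq_pow, AdjoinRoot.powerBasis_gen]
    rfl
  · intro q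
    rw [AdjoinRoot.aeval_eq, AdjoinRoot.mk_eq_zero]

end Pool.Agent.L0h85.HY
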